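import Mathlib
import Pool.Agent.R488.Sq.Main
import Pool.Agent.R488.Sq.Q
import Pool.Agent.R488.Sq.S
import Pool.Agent.R488.Sq.T
import Pool.Agent.R488.Sq.B
import Pool.Agent.R488.Sq.Tau
import Pool.Agent.R488.Sq.R

/-!
# Truncated sums at `-9/16` and the form `L^2 + 27 M^2`

`∑ C(-1/3,k) C(-1/6,k) (-9/16)^k = ∑ C(-2/3,k) C(-5/6,k) (-9/16)^k = L - p/L` modulo `p^2`.

Proof: both sums are, by a quadratic transformation at the two terminating points of an affine
family, combinations of the Legendre polynomials `P_{2j}, P_{4j}`, respectively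
`P_{p+2j}, P_{p+4j}`, at `-5/4` (`p = 6j+1`).  These are expressed by the value and the derivatives
of a four-parameter truncated `2F1(9/8)`, which are found from a terminating (strange) evaluation
of `2F1(9/8)` at `n = 2j` and at `n = p + 2j`.
-/

set_option autoImplicit false

namespace Pool.Agent.Results.MP_ffaf6e_nt.SumsAtNineSixteenths

open Finset

/-- the binomial coefficient `a (a-1) ⋯ (a-k+1) / k!` for rational `a` -/
def binom (a : ℚ) (k : ℕ) : ℚ := (∏ i ∈ range k, (a - i)) / k.factorial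

/-- `x ≡ y (mod p^2)` for rational numbers `x`, `y` with denominators prime to `p`:
the numerator of `x - y` (in lowest terms) is divisible by `p^2`. -/
def CongrSq (p : ℕ) (x y : ℚ) : Prop :=
  ¬ p ∣ x.den ∧ ¬ p ∣ y.den ∧ (p : ℤ) ^ 2 ∣ (x - y).num

open Pool.Agent.R439.PL Pool.Agent.R488.Cub Pool.Agent.R488.Sq

theorem num_of_I {p : ℕ} [hp : Fact p.Prime] {x : ℚ} (h : I p 2 x) : (p : ℤ) ^ 2 ∣ x.num := by
  obtain ⟨y, ⟨a, b, hb, rfl⟩, h⟩ := h
  have hb0 : (b : ℚ) ≠ 0 := by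
    intro h; apply hb; have : b = 0 := by exact_mod_cast h
    rw [this]; exact dvd_zero _
  have hd0 : (x.den : ℚ) ≠ 0 := by exact_mod_cast x.den_nz
  have h0 : x * b = (p : ℚ) ^ 2 * a := by
    rw [h]; field_simp
  have h1 : (x.num : ℚ) * b = (p : ℚ) ^ 2 * (a * x.den) := by
    have e : (x.num : ℚ) = x * x.den := (Rat.mul_den_eq_num x).symm
    rw [e]
    linear_combination (x.den : ℚ) * h0
  have h2 : x.num * b = (p : ℤ) ^ 2 * (a * x.den) := by exact_mod_cast h1
  have hc : IsCoprime ((p : ℤ) ^ 2) b :=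
    IsCoprime.pow_left ((Prime.coprime_iff_not_dvd (pz (p := p))).2 hb)
  exact hc.dvd_of_dvd_mul_right ⟨_, h2⟩

theorem congr_of_EQ {p : ℕ} [Fact p.Prime] {x y : ℚ} (h : EQ p 2 x y) : CongrSq p x y := by
  refine ⟨?_, ?_, num_of_I h.2.2⟩
  · have := den_of_I (p := p) (k := 0) (I_zero_iff.2 h.1)
    rwa [pow_zero, div_one] at this
  · have := den_of_I (p := p) (k := 0) (I_zero_iff.2 h.2.1)
    rwa [pow_zero, div_one] at this

theorem binom_mul (A B : ℚ) (k : ℕ) : binom (-A) k * binom (-B) k =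
    ∏ i ∈ range k, ((A + i) * (B + i) / ((1 + i) * (1 + i))) := by
  have h1 : (k.factorial : ℚ) = ∏ i ∈ range k, (1 + (i : ℚ)) := by
    rw [← prod_range_add_one_eq_factorial]; push_cast
    exact prod_congr rfl fun i _ => add_comm _ _
  rw [binom, binom, div_mul_div_comm, h1, ← prod_mul_distrib, ← prod_mul_distrib, ← prod_div_distrib]
  refine prod_congr rfl fun i _ => ?_
  congr 1
  ring

theorem result (p : ℕ) (hp : p.Prime) (h3 : p % 3 = 1) :
    (∃ L M : ℤ, 4 * (p : ℤ) = L ^ 2 + 27 * M ^ 2 ∧ L % 3 = 2) ∧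
    ∀ L M : ℤ, 4 * (p : ℤ) = L ^ 2 + 27 * M ^ 2 → L % 3 = 2 →
      CongrSq p (∑ k ∈ range p, binom (-(1 / 3)) k * binom (-(1 / 6)) k * (-(9 / 16)) ^ k)
        ((L : ℚ) - p / L) ∧
      CongrSq p (∑ k ∈ range p, binom (-(2 / 3)) k * binom (-(5 / 6)) k * (-(9 / 16)) ^ k)
        ((L : ℚ) - p / L) := by
  haveI : Fact p.Prime := ⟨hp⟩
  obtain ⟨j, hj⟩ : ∃ j, p = 6 * j + 1 := by
    have h2 : p % 2 = 1 := by
      rcases hp.eq_two_or_odd with h | h
      · subst h; omega
      · exact h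
    exact ⟨p / 6, by omega⟩
  constructor
  · obtain ⟨L, M, h1, h2, -⟩ := jac p j hj
    exact ⟨-L, M, by rw [h1]; ring, by omega⟩
  · intro L M h1 h2
    have hC := choose_L (p := p) hj h1 h2
    have e1 : ∑ k ∈ range p, binom (-(1 / 3)) k * binom (-(1 / 6)) k * (-(9 / 16)) ^ k =
        QQ (1 / 3) (1 / 6) p := sum_congr rfl fun k _ => by rw [binom_mul]
    have e2 : ∑ k ∈ range p, binom (-(2 / 3)) k * binom (-(5 / 6)) k * (-(9 / 16)) ^ k =
        QQ (2 / 3) (5 / 6) p := sum_congr rfl fun k _ => by rw [binom_mul]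
    have s1 := S1_eq (p := p) sqQ sqS hj
    rw [ff_zero] at s1
    have s2 := S2_eq (p := p) sqQ sqS sqT sqB (sqTau sqB) sqR hj
    rw [e1, e2]
    exact ⟨congr_of_EQ ((s1.trans (Pool.Agent.R488.Nin.both (p := p) hj).1).trans hC),
      congr_of_EQ (s2.trans hC)⟩

end Pool.Agent.Results.MP_ffaf6e_nt.SumsAtNineSixteenths
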